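import Mathlib

namespace Pool.Agent.Results.MP_8a6e71_co.NoDisjointCycles

/-- A configuration `x ∈ {0,1}ⁿ`. -/
abbrev Config (n : ℕ) := Fin n → Bool

/-- A Boolean network `f : {0,1}ⁿ → {0,1}ⁿ`. -/
abbrev Network (n : ℕ) := Config n → Config n

/-- An arc `x → y` of the asynchronous graph `Γ(f)`: `y` arises from `x` by flipping one
coordinate `i` with `x i ≠ f x i`. -/
def Step {n : ℕ} (f : Network n) (x y : Config n) : Prop :=
  ∃ i, x i ≠ f x i ∧ y = Function.update x i (!x i)

/-- No arc of `Γ(f)` leaves `X`. -/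
def IsTrap {n : ℕ} (f : Network n) (X : Set (Config n)) : Prop :=
  ∀ x ∈ X, ∀ y, Step f x y → y ∈ X

/-- Attractors: the inclusion-minimal nonempty trap sets. -/
def IsAttractor {n : ℕ} (f : Network n) (A : Set (Config n)) : Prop :=
  A.Nonempty ∧ IsTrap f A ∧ ∀ B : Set (Config n), B ⊆ A → B.Nonempty → IsTrap f B → B = A

/-- Subspaces `{x : x i = c i for all i ∈ I}`. -/
def IsSubspace {n : ℕ} (S : Set (Config n)) : Prop :=
  ∃ (I : Set (Fin n)) (c : Fin n → Bool), S = {x | ∀ i ∈ I, x i = c i}

/-- `[X]`, the smallest subspace containing `X` (as the intersection of all subspaces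
containing `X`). -/
def hull {n : ℕ} (X : Set (Config n)) : Set (Config n) :=
  {x | ∀ S : Set (Config n), IsSubspace S → X ⊆ S → x ∈ S}

/-- `Γ(f)` is separating: `[A] ∩ [B] = ∅` for all distinct attractors `A, B`. -/
def Separating {n : ℕ} (f : Network n) : Prop :=
  ∀ A B : Set (Config n), IsAttractor f A → IsAttractor f B → A ≠ B → hull A ∩ hull B = ∅

/-- A signed digraph on `n` vertices: positive arcs and negative arcs (loops allowed, and both
signs allowed from `j` to `i`). -/
structure SignedDigraph (n : ℕ) where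
  pos : Fin n → Fin n → Prop
  neg : Fin n → Fin n → Prop

/-- The signed interaction graph `G(f)`. -/
def interactionGraph {n : ℕ} (f : Network n) : SignedDigraph n where
  pos j i := ∃ x y : Config n, (∀ k, k ≠ j → x k = y k) ∧ x j = false ∧ y j = true ∧
    f x i = false ∧ f y i = true
  neg j i := ∃ x y : Config n, (∀ k, k ≠ j → x k = y k) ∧ x j = false ∧ y j = true ∧
    f x i = true ∧ f y i = false

/-- `G.arc s j i`: there is an arc `j → i` of sign `s` in `G`. -/
def SignedDigraph.arc {n : ℕ} (G : SignedDigraph n) (s : ℤˣ) (j i : Fin n) : Prop :=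
  (s = 1 ∧ G.pos j i) ∨ (s = -1 ∧ G.neg j i)

/-- A cycle of length `len + 1 ≥ 1` in a signed digraph: distinct vertices
`vert 0, …, vert len` and, for every `t` (cyclically), a chosen arc
`vert t → vert (t + 1)` of sign `sgn t`. -/
structure SignedDigraph.Cycle {n : ℕ} (G : SignedDigraph n) where
  len : ℕ
  vert : Fin (len + 1) → Fin n
  inj : Function.Injective vert
  sgn : Fin (len + 1) → ℤˣ
  isArc : ∀ t, G.arc (sgn t) (vert t) (vert (t + 1))

/-- The sign of a cycle: the product of the signs of its arcs. -/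
def SignedDigraph.Cycle.sign {n : ℕ} {G : SignedDigraph n} (C : G.Cycle) : ℤˣ := ∏ t, C.sgn t

/-- `G` is non-separating: `G = G(f)` for some `f` with `Γ(f)` non-separating. -/
def NonSeparating {n : ℕ} (G : SignedDigraph n) : Prop :=
  ∃ f : Network n, interactionGraph f = G ∧ ¬ Separating f

/-- The network of the counterexample. -/
def F : Network 5 := fun x =>
  ![ !(xor (x 2) (x 3)),
     xor (x 0) (x 4),
     (!x 4 && x 1 && x 3) || (x 4 && !x 1 && !x 3),
     (x 0 == x 1) && (x 1 == x 2),
     xor (x 0) (x 3) ]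

/-- configuration number `m` -/
def cfg (m : ℕ) : Config 5 := fun i => m.testBit i

/-- a closed walk through the second attractor -/
def walk : Fin 28 → Config 5 := fun t =>
  cfg (![0, 1, 3, 19, 17, 21, 20, 22, 18, 2, 0, 8, 24, 26, 18, 19, 17, 21, 20, 4, 0, 1, 17, 21,
    20, 22, 6, 4] t)

/-- The pairs `(j, i)` such that `f_i` depends on `x_j`. -/
def E (j i : Fin 5) : Bool :=
  (![ ![false, true, false, true, true],
      ![false, false, true, true, false],
      ![true, false, false, true, false],
      ![true, false, true, false, true],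
      ![false, true, true, false, false] ] : Fin 5 → Fin 5 → Bool) j i

lemma not_dep : ∀ j i : Fin 5, E j i = false → ∀ x : Config 5, ∀ b : Bool,
    F (Function.update x j b) i = F x i := by
  decide +kernel

lemma dep_of_arc (s : ℤˣ) (j i : Fin 5) (h : (interactionGraph F).arc s j i) : E j i = true := by
  by_contra hE
  have hE' : E j i = false := by simpa using hE
  have key : ∀ x y : Config 5, (∀ k, k ≠ j → x k = y k) → F x i = F y i := by
    intro x y hxy
    have : y = Function.update x j (y j) := by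
      funext k
      by_cases hk : k = j
      · subst hk; simp
      · rw [Function.update_of_ne hk]; exact (hxy k hk).symm
    rw [this]
    exact (not_dep j i hE' x (y j)).symm
  rcases h with ⟨_, x, y, hxy, _, _, h1, h2⟩ | ⟨_, x, y, hxy, _, _, h1, h2⟩
  · have := key x y hxy; rw [h1, h2] at this; exact Bool.noConfusion this
  · have := key x y hxy; rw [h1, h2] at this; exact Bool.noConfusion this

lemma no_disj : ∀ X Y : Finset (Fin 5), X.Nonempty → Y.Nonempty →
    (∀ v ∈ X, ∃ u ∈ X, E v u = true) → (∀ v ∈ Y, ∃ u ∈ Y, E v u = true) → ¬ Disjoint X Y := by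
  decide +kernel

lemma cycles_meet (C D : (interactionGraph F).Cycle) :
    ¬ Disjoint (Set.range C.vert) (Set.range D.vert) := by
  intro hd
  have hout : ∀ C : (interactionGraph F).Cycle, ∀ v ∈ Finset.univ.image C.vert,
      ∃ u ∈ Finset.univ.image C.vert, E v u = true := by
    intro C v hv
    obtain ⟨t, _, rfl⟩ := Finset.mem_image.mp hv
    exact ⟨C.vert (t + 1), Finset.mem_image_of_mem _ (Finset.mem_univ _),
      dep_of_arc _ _ _ (C.isArc t)⟩
  have hne : ∀ C : (interactionGraph F).Cycle, (Finset.univ.image C.vert).Nonempty := by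
    intro C
    exact ⟨C.vert 0, Finset.mem_image_of_mem _ (Finset.mem_univ _)⟩
  refine no_disj _ _ (hne C) (hne D) (hout C) (hout D) ?_
  rw [Finset.disjoint_left]
  intro a ha hb
  obtain ⟨t, _, rfl⟩ := Finset.mem_image.mp ha
  obtain ⟨s, _, hs⟩ := Finset.mem_image.mp hb
  exact Set.disjoint_left.mp hd ⟨t, rfl⟩ ⟨s, hs⟩

lemma walk_step : ∀ t : Fin 28, ∃ i : Fin 5, walk t i ≠ F (walk t) i ∧
    walk (t + 1) = Function.update (walk t) i (!walk t i) := by
  decide +kernel

lemma walk_closed : ∀ t : Fin 28, ∀ i : Fin 5, walk t i ≠ F (walk t) i →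
    ∃ s : Fin 28, walk s = Function.update (walk t) i (!walk t i) := by
  decide +kernel

lemma walk_both : ∀ i : Fin 5, ∀ b : Bool, ∃ t : Fin 28, walk t i = b := by
  decide +kernel

lemma fixed : F (cfg 15) = cfg 15 := by decide +kernel

lemma walk_ne : ∀ t : Fin 28, walk t ≠ cfg 15 := by decide +kernel

lemma attr_walk : IsAttractor F (Set.range walk) := by
  refine ⟨⟨walk 0, 0, rfl⟩, ?_, ?_⟩
  · rintro x ⟨t, rfl⟩ y ⟨i, hi, rfl⟩
    obtain ⟨s, hs⟩ := walk_closed t i hi
    exact ⟨s, hs⟩
  · intro B hBA hBne hBt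
    refine Set.Subset.antisymm hBA ?_
    obtain ⟨b, hb⟩ := hBne
    obtain ⟨t0, rfl⟩ := hBA hb
    have hstep : ∀ t : Fin 28, walk t ∈ B → walk (t + 1) ∈ B := by
      intro t ht
      obtain ⟨i, hi, hw⟩ := walk_step t
      exact hBt _ ht _ ⟨i, hi, hw⟩
    have hall : ∀ k : ℕ, walk (t0 + (Fin.ofNat 28 k)) ∈ B := by
      intro k
      induction k with
      | zero => simpa using hb
      | succ k ih =>
        have := hstep _ ih
        have he : t0 + Fin.ofNat 28 (k + 1) = t0 + Fin.ofNat 28 k + 1 := by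
          apply Fin.ext
          simp only [Fin.val_add, Fin.ofNat]
          have : ((1 : Fin 28) : ℕ) = 1 := rfl
          omega
        rw [he]; exact this
    rintro _ ⟨s, rfl⟩
    have := hall ((s - t0 : Fin 28) : ℕ)
    have he : t0 + Fin.ofNat 28 ((s - t0 : Fin 28) : ℕ) = s := by
      apply Fin.ext
      simp only [Fin.val_add, Fin.ofNat, Fin.val_sub]
      omega
    rwa [he] at this

lemma attr_fixed : IsAttractor F {cfg 15} := by
  refine ⟨⟨_, rfl⟩, ?_, ?_⟩
  · rintro x hx y ⟨i, hi, _⟩
    rw [Set.mem_singleton_iff] at hx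
    subst hx
    rw [fixed] at hi
    exact absurd rfl hi
  · intro B hB hne _
    exact (Set.Nonempty.subset_singleton_iff hne).mp hB

lemma hull_walk (x : Config 5) : x ∈ hull (Set.range walk) := by
  rintro S ⟨I, c, rfl⟩ hS
  intro i hi
  obtain ⟨t, ht⟩ := walk_both i (!c i)
  have : walk t i = c i := hS ⟨t, rfl⟩ i hi
  rw [this] at ht
  simp at ht

lemma nonsep : ¬ Separating F := by
  intro h
  have hne : Set.range walk ≠ {cfg 15} := by
    intro he
    have h0 : walk 0 ∈ ({cfg 15} : Set (Config 5)) := he ▸ ⟨0, rfl⟩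
    exact walk_ne 0 h0
  have := h _ _ attr_walk attr_fixed hne
  have hmem : cfg 15 ∈ hull (Set.range walk) ∩ hull {cfg 15} :=
    ⟨hull_walk _, fun S _ hS => hS rfl⟩
  rw [this] at hmem
  exact hmem

/-- **MP_8a6e71, Q1, negated form.**  There is a non-separating signed digraph `G` (on five
vertices) in which any two cycles share a vertex; in particular `G` has no positive cycle
disjoint from a negative cycle. -/
theorem result : ∃ G : SignedDigraph 5, NonSeparating G ∧
    (∀ C D : G.Cycle, ¬ Disjoint (Set.range C.vert) (Set.range D.vert)) ∧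
    ¬ ∃ C D : G.Cycle, C.sign = 1 ∧ D.sign = -1 ∧
      Disjoint (Set.range C.vert) (Set.range D.vert) :=
  ⟨interactionGraph F, ⟨F, rfl, nonsep⟩, cycles_meet,
    fun ⟨C, D, _, _, h⟩ => cycles_meet C D h⟩

end Pool.Agent.Results.MP_8a6e71_co.NoDisjointCycles
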